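import Pool.Graph.R_pool_sql_team_seeded_3997aac3.Results.MP_215127_an.ChordalMergelyan

/-!
# Mergelyan's theorem for chordal-metric polynomial approximation: the exact class of compact sets

For a compact set `L` of the plane, the `χ`-uniform limits on `L` of polynomials are exactly the
functions of the class `M(L)` if and only if the complement of `L` is connected, and this is
decided by the functions `1 / (z - a)`, `a ∉ L`.
-/

set_option autoImplicit false

open Filter Topology Set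

namespace Pool.Agent.Results.MP_215127_an.ConnectedComplement

open Pool.Agent.Results.MP_215127_an.ChordalMergelyan

/-- the complement of a closed disc about the origin is connected -/
lemma preconn (R : ℝ) (hR : 0 < R) : IsPreconnected {z : ℂ | R < ‖z‖} := by
  have h : {z : ℂ | R < ‖z‖} = Complex.exp '' {w : ℂ | Real.log R < w.re} := by
    ext z
    constructor
    · intro hz
      have hz' : R < ‖z‖ := hz
      have h0 : z ≠ 0 := norm_pos_iff.1 (hR.trans hz')
      refine ⟨Complex.log z, ?_, Complex.exp_log h0⟩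
      show Real.log R < (Complex.log z).re
      rw [Complex.log_re]
      exact Real.log_lt_log hR hz'
    · rintro ⟨w, hw, rfl⟩
      show R < ‖Complex.exp w‖
      rw [Complex.norm_exp]
      exact (Real.log_lt_iff_lt_exp hR).1 hw
  rw [h]
  exact (convex_halfSpace_re_gt (Real.log R)).isPreconnected.image _ Complex.continuous_exp.continuousOn

/-- a compact set whose complement is not connected has a hole -/
lemma hole {L : Set ℂ} (hL : IsCompact L) (h : ¬ IsConnected Lᶜ) :
    ∃ U : Set ℂ, IsOpen U ∧ U.Nonempty ∧ Bornology.IsBounded U ∧ Disjoint U L ∧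
      frontier U ⊆ L := by
  obtain ⟨R, hR, hLR⟩ : ∃ R : ℝ, 0 < R ∧ ∀ z ∈ L, ‖z‖ ≤ R := by
    obtain ⟨R, hR, h⟩ := hL.isBounded.exists_pos_norm_le
    exact ⟨R, hR, h⟩
  have hsub : {z : ℂ | R < ‖z‖} ⊆ Lᶜ := fun z hz hzL => (not_lt.2 (hLR z hzL)) hz
  have hne : (Lᶜ).Nonempty := by
    refine ⟨((R + 1 : ℝ) : ℂ), hsub ?_⟩
    show R < ‖((R + 1 : ℝ) : ℂ)‖
    rw [Complex.norm_real, Real.norm_of_nonneg (by linarith)]
    linarith
  have hnp : ¬ IsPreconnected Lᶜ := fun hp => h ⟨hne, hp⟩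
  unfold IsPreconnected at hnp
  push Not at hnp
  obtain ⟨u, v, hu, hv, huv, hu1, hv1, huv1⟩ := hnp
  have hLo : IsOpen Lᶜ := hL.isClosed.isOpen_compl
  -- a general statement for one of the two pieces
  have key : ∀ u v : Set ℂ, IsOpen u → IsOpen v → Lᶜ ⊆ u ∪ v → (Lᶜ ∩ u).Nonempty →
      Lᶜ ∩ (u ∩ v) = ∅ → {z : ℂ | R < ‖z‖} ⊆ v →
      ∃ U : Set ℂ, IsOpen U ∧ U.Nonempty ∧ Bornology.IsBounded U ∧ Disjoint U L ∧
        frontier U ⊆ L := by
    intro u v hu hv huv hu1 huv1 hRv
    refine ⟨Lᶜ ∩ u, hLo.inter hu, hu1, ?_, ?_, ?_⟩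
    · refine (Metric.isBounded_closedBall (x := (0 : ℂ)) (r := R)).subset ?_
      rintro z ⟨hz, hzu⟩
      rw [mem_closedBall_zero_iff]
      by_contra hcon
      have hzv : z ∈ v := hRv (not_le.1 hcon)
      have : z ∈ Lᶜ ∩ (u ∩ v) := ⟨hz, hzu, hzv⟩
      rw [huv1] at this
      exact this
    · rw [Set.disjoint_left]
      exact fun z hz hzL => hz.1 hzL
    · intro z hz
      by_contra hzL
      have hzL' : z ∈ Lᶜ := hzL
      rw [(hLo.inter hu).frontier_eq] at hz
      obtain ⟨hz1, hz2⟩ := hz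
      have hzv : z ∈ v := by
        rcases huv hzL' with h1 | h1
        · exact absurd ⟨hzL', h1⟩ hz2
        · exact h1
      obtain ⟨y, hy1, hy2⟩ := mem_closure_iff.1 hz1 (Lᶜ ∩ v) (hLo.inter hv) ⟨hzL', hzv⟩
      have : y ∈ Lᶜ ∩ (u ∩ v) := ⟨hy1.1, hy2.2, hy1.2⟩
      rw [huv1] at this
      exact this
  have hcon := preconn R hR
  have hE : Lᶜ ∩ (u ∩ v) = ∅ := by
    simpa [Set.not_nonempty_iff_eq_empty] using huv1
  -- the outer part lies in one of the two pieces
  have hdisj : {z : ℂ | R < ‖z‖} ⊆ u ∨ {z : ℂ | R < ‖z‖} ⊆ v := by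
    refine isPreconnected_iff_subset_of_disjoint.1 hcon u v hu hv (hsub.trans huv) ?_
    exact Set.subset_eq_empty (Set.inter_subset_inter_left _ hsub) hE
  rcases hdisj with h1 | h1
  · exact key v u hv hu (by rwa [union_comm] at huv) hv1 (by rwa [inter_comm v u]) h1
  · exact key u v hu hv huv hu1 hE h1

/-- A finite value near a bounded value in the chordal metric is near it in the plane. -/
lemma near {a b : ℂ} {R ε : ℝ} (hR : 0 ≤ R) (hb : ‖b‖ ≤ R) (hε : 0 < ε)
    (hε1 : ε * (1 + R) ≤ 1 / 2) (h : chord (a : OnePoint ℂ) (b : OnePoint ℂ) < ε) :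
    ‖a - b‖ ≤ 2 * ε * (1 + R) ^ 2 := by
  have h' : ‖a - b‖ / (√(1 + ‖a‖ ^ 2) * √(1 + ‖b‖ ^ 2)) < ε := h
  have ha0 := norm_nonneg a
  have hb0 := norm_nonneg b
  have hab := norm_nonneg (a - b)
  have ha1 : √(1 + ‖a‖ ^ 2) ≤ 1 + ‖a‖ := Real.sqrt_le_iff.2 ⟨by linarith, by nlinarith⟩
  have hb1 : √(1 + ‖b‖ ^ 2) ≤ 1 + R := Real.sqrt_le_iff.2 ⟨by linarith, by nlinarith⟩
  have hpa : 0 < √(1 + ‖a‖ ^ 2) := Real.sqrt_pos.2 (by positivity)
  have hpb : 0 < √(1 + ‖b‖ ^ 2) := Real.sqrt_pos.2 (by positivity)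
  rw [div_lt_iff₀ (mul_pos hpa hpb)] at h'
  have hna : ‖a‖ ≤ R + ‖a - b‖ := by
    have := norm_le_norm_add_norm_sub' a b
    linarith [norm_sub_rev a b]
  have h2 : √(1 + ‖a‖ ^ 2) * √(1 + ‖b‖ ^ 2) ≤ (1 + R + ‖a - b‖) * (1 + R) :=
    mul_le_mul (by linarith) hb1 hpb.le (by linarith)
  have h3 : ‖a - b‖ ≤ ε * ((1 + R + ‖a - b‖) * (1 + R)) :=
    h'.le.trans (mul_le_mul_of_nonneg_left h2 hε.le)
  have h4 : ε * ((1 + R + ‖a - b‖) * (1 + R)) = ε * (1 + R) ^ 2 + ε * (1 + R) * ‖a - b‖ := by ring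
  rw [h4] at h3
  have h5 : ε * (1 + R) * ‖a - b‖ ≤ 1 / 2 * ‖a - b‖ := mul_le_mul_of_nonneg_right hε1 hab
  linarith

/-- The functions `1 / (z - a)`, `a ∉ L`, are in the class. -/
lemma inM_inv {L : Set ℂ} {a : ℂ} (haL : a ∉ L) :
    InM L (fun z => (((z - a)⁻¹ : ℂ) : OnePoint ℂ)) := by
  have hz : ∀ z ∈ L, z - a ≠ 0 := fun z hz h => haL (by rw [← sub_eq_zero.1 h]; exact hz)
  have hcont : ContinuousOn (fun z : ℂ => (z - a)⁻¹) L :=
    (continuousOn_id.sub continuousOn_const).inv₀ hz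
  refine ⟨OnePoint.continuous_coe.comp_continuousOn hcont, ?_⟩
  intro z hz'
  right
  refine ⟨fun z => (z - a)⁻¹, ?_, fun w _ => rfl⟩
  intro w hw
  have hwL : w ∈ L := interior_subset (connectedComponentIn_subset _ _ hw)
  exact ((differentiableAt_id.sub (differentiableAt_const a)).inv (hz w hwL)).differentiableWithinAt

/-- If a compact set has a hole, some function of the class is not a limit of polynomials. -/
lemma not_limit {L U : Set ℂ} (hL : IsCompact L) {a : ℂ} (ha : a ∈ U)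
    (hb : Bornology.IsBounded U) (hd : Disjoint U L) (hf : frontier U ⊆ L) :
    ¬ IsLimit L (fun z => (((z - a)⁻¹ : ℂ) : OnePoint ℂ)) := by
  have haL : a ∉ L := fun h => Set.disjoint_left.1 hd ha h
  have hz : ∀ z ∈ L, z - a ≠ 0 := fun z hz h => haL (by rw [← sub_eq_zero.1 h]; exact hz)
  have hcont : ContinuousOn (fun z : ℂ => (z - a)⁻¹) L :=
    (continuousOn_id.sub continuousOn_const).inv₀ hz
  · rintro ⟨p, hp⟩
    obtain ⟨R, hR, hRb⟩ : ∃ R : ℝ, 0 < R ∧ ∀ z ∈ L, ‖(z - a)⁻¹‖ ≤ R := by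
      obtain ⟨R, hR⟩ := hL.exists_bound_of_continuousOn hcont
      exact ⟨max R 1, lt_of_lt_of_le one_pos (le_max_right _ _),
        fun z hz => (hR z hz).trans (le_max_left _ _)⟩
    obtain ⟨D, hD, hDb⟩ : ∃ D : ℝ, 0 < D ∧ ∀ z ∈ L, ‖z - a‖ ≤ D := by
      obtain ⟨D, hD⟩ := hL.exists_bound_of_continuousOn
        (f := fun z : ℂ => z - a) (continuousOn_id.sub continuousOn_const)
      exact ⟨max D 1, lt_of_lt_of_le one_pos (le_max_right _ _),
        fun z hz => (hD z hz).trans (le_max_left _ _)⟩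
    set ε : ℝ := 1 / (4 * (1 + R) ^ 2 * (1 + D)) with hεdef
    have hpos : 0 < 4 * (1 + R) ^ 2 * (1 + D) := by positivity
    have hε : 0 < ε := by rw [hεdef]; positivity
    have hεR : ε * (1 + R) ≤ 1 / 2 := by
      rw [hεdef, one_div, inv_mul_le_iff₀ hpos]
      nlinarith [mul_pos hR hD, mul_pos hR hR, mul_pos (mul_pos hR hR) hD]
    obtain ⟨N, hN⟩ := hp ε hε
    set q : ℂ → ℂ := fun z => (z - a) * (p N).eval z - 1 with hq
    have hqd : DiffContOnCl ℂ q U := by
      apply Differentiable.diffContOnCl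
      exact ((differentiable_id.sub (differentiable_const a)).mul (p N).differentiable).sub
        (differentiable_const 1)
    have hbound : ∀ z ∈ frontier U, ‖q z‖ ≤ 1 / 2 := by
      intro z hzU
      have hzL := hf hzU
      have h1 := near hR.le (hRb z hzL) hε hεR (hN N le_rfl z hzL)
      have h2 : q z = (z - a) * ((p N).eval z - (z - a)⁻¹) := by
        rw [hq]
        show (z - a) * (p N).eval z - 1 = _
        rw [mul_sub, mul_inv_cancel₀ (hz z hzL)]
      rw [h2, norm_mul]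
      calc ‖z - a‖ * ‖(p N).eval z - (z - a)⁻¹‖ ≤ D * (2 * ε * (1 + R) ^ 2) :=
            mul_le_mul (hDb z hzL) h1 (norm_nonneg _) hD.le
        _ = D / (1 + D) * (1 / 2) := by
            rw [hεdef]
            field_simp
            ring
        _ ≤ 1 * (1 / 2) := by
            refine mul_le_mul_of_nonneg_right ?_ (by norm_num)
            rw [div_le_one (by linarith)]
            linarith
        _ = 1 / 2 := one_mul _
    have h3 := Complex.norm_le_of_forall_mem_frontier_norm_le hb hqd hbound (subset_closure ha)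
    have h4 : q a = -1 := by
      rw [hq]
      show (a - a) * (p N).eval a - 1 = -1
      rw [sub_self, zero_mul, zero_sub]
    rw [h4, norm_neg, norm_one] at h3
    norm_num at h3

/-- Every limit of polynomials is in the class, for every set `L`. -/
lemma limit_inM {L : Set ℂ} {f : ℂ → OnePoint ℂ} (h : IsLimit L f) : InM L f := by
  obtain ⟨p, hp⟩ := h
  have h0 : Q73.CM.ULim L p f := fun ε hε => by
    obtain ⟨N, hN⟩ := hp ε hε
    exact ⟨N, fun n hn z hz => by rw [← chord_eq]; exact hN n hn z hz⟩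
  obtain ⟨h1, h2⟩ := h0.inM
  exact ⟨h1, h2⟩

/-- **Mergelyan's theorem for the chordal metric, with the exact class of compact sets.** The
`χ`-uniform limits of polynomials on an arbitrary set `L` of the plane are in the class `M(L)`.
For compact `L` the following are equivalent: the complement of `L` is connected; the limits are
exactly the functions in `M(L)`; every finite valued function in `M(L)` is a limit; for every
`a ∉ L` the function `1 / (z - a)` is a limit. -/
theorem result : (∀ (L : Set ℂ) (f : ℂ → OnePoint ℂ), IsLimit L f → InM L f) ∧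
    ∀ L : Set ℂ, IsCompact L → List.TFAE [
      IsConnected Lᶜ,
      ∀ f : ℂ → OnePoint ℂ, IsLimit L f ↔ InM L f,
      ∀ f : ℂ → OnePoint ℂ, InM L f → (∀ z ∈ L, f z ≠ OnePoint.infty) → IsLimit L f,
      ∀ a : ℂ, a ∉ L → IsLimit L (fun z => (((z - a)⁻¹ : ℂ) : OnePoint ℂ))] := by
  refine ⟨fun L f h => limit_inM h, fun L hL => ?_⟩
  tfae_have 1 → 2 := fun h => ChordalMergelyan.result L hL h
  tfae_have 2 → 3 := fun h f hf _ => (h f).2 hf
  tfae_have 3 → 4 := fun h a ha => h _ (inM_inv ha) fun z _ => OnePoint.coe_ne_infty _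
  tfae_have 4 → 1 := by
    intro h
    by_contra hcon
    obtain ⟨U, h1, ⟨a, ha⟩, h3, h4, h5⟩ := hole hL hcon
    exact not_limit hL ha h3 h4 h5 (h a fun h' => Set.disjoint_left.1 h4 ha h')
  tfae_finish

end Pool.Agent.Results.MP_215127_an.ConnectedComplement
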